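import Pool.Agent.H97.HV.Targets2
import Pool.Agent.H89.PRK.DEF

/-!
# Row DFV (MP_e37c09_lc): the least counterexamples form an ordinal definable set
-/

open Ordinal Cardinal Order Set
open scoped ZFSet

universe u

namespace Pool.Agent.H90.HV

open _root_.HD HD.PRK HD.HV Pool.Agent.H89.PRK

/-- a counterexample, without definability -/
def Bd2 (D K : Cardinal.{u}) (l : Ordinal.{u}) (x B : ZFSet.{u}) : Prop :=
  (∃ z, z ∈ x) ∧ (∀ z ∈ x, z ∈ K.ord.toZFSet) ∧ RegV l x B ∧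
    ¬ ∃ Z, OD Z ∧ B ∈ Z ∧ ∃ ν < D, NF.Sz ν Z

theorem regV_iff (l : Ordinal.{u}) (x R : ZFSet.{u}) : RegV l x R ↔
    ∀ z ∈ R, ∃ k a : ZFSet.{u}, z = ZFSet.pair k a ∧ k.IsOrdinal ∧ a ∈ V_ l ∧
      ∀ b ∈ x, k ∈ b := by
  constructor
  · intro h z hz
    obtain ⟨k, a, h1, h2, h3⟩ := h z hz
    exact ⟨k.toZFSet, a, h1, ZFSet.isOrdinal_toZFSet k, h2, h3⟩
  · intro h z hz
    obtain ⟨k, a, h1, h0, h2, h3⟩ := h z hz
    obtain ⟨k, rfl⟩ := ord_of h0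
    exact ⟨k, a, h1, h2, h3⟩

theorem dz_regV (l : Ordinal.{u}) (i j : ℕ) : DZ.{u} fun v => RegV l (v i) (v j) := by
  refine DZ.congr (P := fun v => ∀ z ∈ v j, ∃ k a : ZFSet.{u}, z = ZFSet.pair k a ∧
    k.IsOrdinal ∧ a ∈ V_ l ∧ ∀ b ∈ v i, k ∈ b) ?_ fun v => regV_iff l (v i) (v j)
  refine DZ.od (R := fun w v => ∀ z ∈ v j, ∃ k a : ZFSet.{u}, z = ZFSet.pair k a ∧
    k.IsOrdinal ∧ a ∈ w ∧ ∀ b ∈ v i, k ∈ b) (NF.od_V l) ?_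
  exact DZ.allMem (R := fun z v => ∃ k a : ZFSet.{u}, z = ZFSet.pair k a ∧ k.IsOrdinal ∧
    a ∈ v 0 ∧ ∀ b ∈ v (i + 1), k ∈ b) (j + 1)
    (DZ.ex (R := fun k v => ∃ a : ZFSet.{u}, v 0 = ZFSet.pair k a ∧ k.IsOrdinal ∧
      a ∈ v 1 ∧ ∀ b ∈ v (i + 2), k ∈ b)
      (DZ.ex (R := fun a v => v 1 = ZFSet.pair (v 0) a ∧ (v 0).IsOrdinal ∧
        a ∈ v 2 ∧ ∀ b ∈ v (i + 3), v 0 ∈ b)
        ((loc_pair 2 1 0).dz.and ((DZ.ord 1).and ((DZ.mem 0 3).and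
          (DZ.allMem (R := fun b v => v 1 ∈ b) (i + 4) (DZ.mem 2 0)))))))

theorem dz_Bd2 {en : Ordinal.{u} → ZFSet.{u}} (h : EN en) (D K : Cardinal.{u})
    (l : Ordinal.{u}) (i k : ℕ) : DZ.{u} fun v => Bd2 D K l (v i) (v k) :=
  (DZ.ex (R := fun z v => z ∈ v i) (DZ.mem 0 (i + 1))).and
    ((DZ.od (R := fun w v => ∀ z ∈ v i, z ∈ w) (OD.ordinal K.ord)
      (DZ.allMem (R := fun z v => z ∈ v 0) (i + 1) (DZ.mem 0 1))).and
      ((dz_regV l i k).and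
        (DZ.ex (R := fun Z v => OD Z ∧ v k ∈ Z ∧ ∃ ν < D, NF.Sz ν Z)
          ((h.dzOD 0).and ((DZ.mem (k + 1) 0).and (def_dz_few D 0)))).not))

/-- `a` is an element of the first counterexample at `x` -/
def Fp2 (en : Ordinal.{u} → ZFSet.{u}) (D K : Cardinal.{u}) (l : Ordinal.{u})
    (x a : ZFSet.{u}) : Prop :=
  ∃ c B, Qc en x c B ∧ Bd2 D K l x B ∧ a ∈ B ∧ ∀ c' ∈ c, ∀ B', ¬ (Qc en x c' B' ∧ Bd2 D K l x B')

theorem dz_Fp2 {en : Ordinal.{u} → ZFSet.{u}} (h : EN en) (D K : Cardinal.{u})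
    (l : Ordinal.{u}) (i j : ℕ) : DZ.{u} fun v => Fp2 en D K l (v i) (v j) :=
  DZ.ex (R := fun c v => ∃ B, Qc en (v i) c B ∧ Bd2 D K l (v i) B ∧ v j ∈ B ∧
      ∀ c' ∈ c, ∀ B', ¬ (Qc en (v i) c' B' ∧ Bd2 D K l (v i) B'))
    (DZ.ex (R := fun B v => Qc en (v (i + 1)) (v 0) B ∧ Bd2 D K l (v (i + 1)) B ∧
      v (j + 1) ∈ B ∧ ∀ c' ∈ v 0, ∀ B', ¬ (Qc en (v (i + 1)) c' B' ∧ Bd2 D K l (v (i + 1)) B'))
    ((def_dz_Qc h (i + 2) 1 0).and ((dz_Bd2 h D K l (i + 2) 0).and ((DZ.mem (j + 2) 0).and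
      (DZ.allMem (R := fun c' v => ∀ B', ¬ (Qc en (v (i + 2)) c' B' ∧
        Bd2 D K l (v (i + 2)) B')) 1
        (DZ.all (R := fun B' v => ¬ (Qc en (v (i + 3)) (v 0) B' ∧ Bd2 D K l (v (i + 3)) B'))
          ((def_dz_Qc h (i + 4) 1 0).and (dz_Bd2 h D K l (i + 4) 0)).not))))))

/-- DFV -/
theorem pf_DFV : T_DFV.{u} := by
  intro D K l
  obtain ⟨en, hen⟩ := HD.All.en.{u}
  have hω : (0 : Ordinal.{u}) < ω := Ordinal.omega0_pos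
  set μ : Ordinal.{u} := max K.ord l with hμ
  have hβ : Gd (μ + ω + ω) := by
    refine ⟨Ordinal.isSuccLimit_add _ Ordinal.isSuccLimit_omega0, ?_⟩
    calc (ω : Ordinal.{u}) ≤ μ + ω := le_add_self
      _ < μ + ω + ω := lt_add_of_pos_right _ hω
  have hμβ : μ < μ + ω + ω := (lt_add_of_pos_right _ hω).trans_le le_self_add
  have hKβ : K.ord < μ + ω + ω := lt_of_le_of_lt (le_max_left _ _) hμβ
  have hlβ : l < μ + ω + ω := lt_of_le_of_lt (le_max_right _ _) hμβ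
  set F : ZFSet.{u} := ZFSet.sep (fun z => ∃ x a, z = ZFSet.pair x a ∧ Fp2 en D K l x a)
    (V_ (μ + ω + ω)) with hF
  have hmem : ∀ x a : ZFSet.{u}, ZFSet.pair x a ∈ F → Fp2 en D K l x a := by
    intro x a h
    rw [hF, ZFSet.mem_sep] at h
    obtain ⟨-, x', a', h1, h2⟩ := h
    obtain ⟨rfl, rfl⟩ := ZFSet.pair_injective h1
    exact h2
  have hord : ∀ {x B z : ZFSet.{u}}, Bd2 D K l x B → z ∈ B → ∃ (k : Ordinal.{u}) (a : ZFSet.{u}),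
      z = ZFSet.pair k.toZFSet a ∧ a ∈ V_ l ∧ (∀ b ∈ x, k.toZFSet ∈ b) ∧ k < K.ord := by
    rintro x B z ⟨⟨z0, hz0⟩, h2, h3, -⟩ hz
    obtain ⟨k, a, h4, h5, h6⟩ := h3 z hz
    obtain ⟨b, hb, rfl⟩ := mem_toZFSet_iff.1 (h2 _ hz0)
    exact ⟨k, a, h4, h5, h6, (toZFSet_mem_toZFSet_iff.1 (h6 _ hz0)).trans hb⟩
  refine ⟨F, ?_, ?_, ?_, ?_, ?_⟩
  · refine Pool.Agent.H45.NF.od_sep (NF.od_V _) ?_
    exact DZ.ex (R := fun x v => ∃ a, v 0 = ZFSet.pair x a ∧ Fp2 en D K l x a)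
      (DZ.ex (R := fun a v => v 1 = ZFSet.pair (v 0) a ∧ Fp2 en D K l (v 0) a)
        ((loc_pair 2 1 0).dz.and (dz_Fp2 hen D K l 1 0)))
  · intro x z hz
    obtain ⟨c, B, -, hB, haB, -⟩ := hmem _ _ (ZFSet.mem_sep.1 hz).2
    exact hB.2.2.1 z haB
  · intro x i a h
    obtain ⟨c, B, -, hB, haB, -⟩ := hmem _ _ h
    obtain ⟨k, a', h1, h2, -, -⟩ := hord hB haB
    rw [(ZFSet.pair_injective h1).2]
    exact h2
  · intro x k a h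
    obtain ⟨c, B, -, hB, haB, -⟩ := hmem _ _ h
    obtain ⟨k', a', h1, -, -, h4⟩ := hord hB haB
    rw [(ZFSet.pair_injective h1).1]
    exact toZFSet_mem_toZFSet_iff.2 h4
  · intro x hx B hB
    obtain ⟨⟨z0, hz0⟩, hBz, hOD, hno⟩ := hB
    have hxK : ∀ z ∈ x, z ∈ K.ord.toZFSet := fun z hz => hx hz
    have hex : ∃ c : Ordinal.{u}, ∃ B', Qc en x c.toZFSet B' ∧ Bd2 D K l x B' := by
      obtain ⟨R, hR, hRB⟩ := (Pool.Agent.H45.NF.pf_pa x B).1 hOD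
      obtain ⟨c, hc⟩ := (hen.od R).1 hR
      refine ⟨c, B, ⟨ZFSet.isOrdinal_toZFSet c, ?_⟩, ⟨z0, hz0⟩, hxK, hBz, hno⟩
      rw [rank_toZFSet, hc]
      exact hRB
    set S : Set Ordinal.{u} := {c | ∃ B', Qc en x c.toZFSet B' ∧ Bd2 D K l x B'} with hS
    have hne : S.Nonempty := hex
    obtain ⟨B0, hQ0, hB0⟩ := csInf_mem hne
    set c0 : Ordinal.{u} := sInf S with hc0
    have hmin : ∀ c' ∈ c0.toZFSet, ∀ B', ¬ (Qc en x c' B' ∧ Bd2 D K l x B') := by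
      intro c' hc' B' h
      obtain ⟨c', hc'', rfl⟩ := mem_toZFSet_iff.1 hc'
      exact absurd hc'' (not_lt.2 (csInf_le' (show c' ∈ S from ⟨B', h⟩)))
    have hxV : x ∈ V_ (μ + ω + ω) := mem_V_of_sub hx (Gd.ord.2 hKβ)
    have hos : sx K.ord l F x = B0 := by
      ext z
      unfold sx
      rw [ZFSet.mem_sep]
      constructor
      · rintro ⟨-, h⟩
        obtain ⟨c, B', hQ, hB', haB, hm⟩ := hmem _ _ h
        obtain ⟨c, rfl⟩ := ord_of hQ.1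
        have hcc : c = c0 := by
          refine le_antisymm ?_ (csInf_le' (show c ∈ S from ⟨B', hQ, hB'⟩))
          by_contra hlt
          exact hm c0.toZFSet (toZFSet_mem_toZFSet_iff.2 (not_le.1 hlt)) B0 ⟨hQ0, hB0⟩
        rw [hcc] at hQ
        have : B0 = B' := (hQ.2 B0).1 ((hQ0.2 B0).2 rfl)
        rw [this]
        exact haB
      · intro hz
        obtain ⟨k, a, rfl, ha, -, hk⟩ := hord hB0 hz
        refine ⟨ZFSet.pair_mem_prod.2 ⟨toZFSet_mem_toZFSet_iff.2 hk, ha⟩, ?_⟩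
        rw [hF, ZFSet.mem_sep]
        have haV : a ∈ V_ (μ + ω + ω) := by
          rw [ZFSet.mem_vonNeumann] at ha ⊢
          exact ha.trans hlβ
        exact ⟨hβ.pair hxV (hβ.pair (Gd.ord.2 (hk.trans hKβ)) haV), x, _, rfl, c0.toZFSet, B0,
          hQ0, hB0, hz, hmin⟩
    rw [hos]
    refine ⟨⟨z0, hz0⟩, hB0.2.2.1, ?_, hB0.2.2.2⟩
    refine (Pool.Agent.H45.NF.pf_pa x B0).2 ⟨en c0, (hen.od _).2 ⟨c0, rfl⟩, ?_⟩
    have := hQ0.2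
    rwa [rank_toZFSet] at this

end Pool.Agent.H90.HV
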