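import Pool.Agent.H97.HV.Targets

/-!
# Row DGN (MP_e37c09_lc): diagonal intersections
-/

open Ordinal Cardinal Order Set
open scoped ZFSet

universe u

namespace Pool.Agent.H90.HV

open _root_.HD HD.PRK HD.HV

/-- `X` is the section of the relation `r` at `n` or its complement -/
def Sec (k r n X : ZFSet.{u}) : Prop :=
  (∀ b ∈ k, b ∈ X ↔ ZFSet.pair n b ∈ r) ∨ ∀ b ∈ k, b ∈ X ↔ ¬ ZFSet.pair n b ∈ r

/-- the function which picks for each section of `r` the section or its complement, whichever is in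
`U` -/
noncomputable def pick (k r U : ZFSet.{u}) : ZFSet.{u} :=
  ZFSet.sep (fun z => ∃ n ∈ k, ∃ X ∈ U, z = ZFSet.pair n X ∧ Sec k r n X) (ZFSet.prod k U)

theorem mem_pick {k r U z : ZFSet.{u}} : z ∈ pick k r U ↔
    ∃ n ∈ k, ∃ X ∈ U, z = ZFSet.pair n X ∧ Sec k r n X := by
  unfold pick
  rw [ZFSet.mem_sep]
  refine ⟨fun h => h.2, fun h => ⟨?_, h⟩⟩
  obtain ⟨n, hn, X, hX, rfl, -⟩ := h
  exact ZFSet.pair_mem_prod.2 ⟨hn, hX⟩

theorem odp_pick {k r U : ZFSet.{u}} (hk : OD k) (hr : OD r) :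
    NF.ODp (ZFSet.pair U U) (pick k r U) := by
  refine Pool.Agent.H45.NF.ODp.of_dz (Q := fun v => ∃ u, v 1 = ZFSet.pair u u ∧
    ∀ z, z ∈ v 0 ↔ ∃ n ∈ k, ∃ X ∈ u, z = ZFSet.pair n X ∧ Sec k r n X) ?_ fun y => ?_
  · refine DZ.od (R := fun k v => ∃ u, v 1 = ZFSet.pair u u ∧
      ∀ z, z ∈ v 0 ↔ ∃ n ∈ k, ∃ X ∈ u, z = ZFSet.pair n X ∧ Sec k r n X) hk
      (DZ.od (R := fun r v => ∃ u, v 2 = ZFSet.pair u u ∧
        ∀ z, z ∈ v 1 ↔ ∃ n ∈ v 0, ∃ X ∈ u, z = ZFSet.pair n X ∧ Sec (v 0) r n X) hr ?_)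
    refine DZ.ex (R := fun u v => v 3 = ZFSet.pair u u ∧
        ∀ z, z ∈ v 2 ↔ ∃ n ∈ v 1, ∃ X ∈ u, z = ZFSet.pair n X ∧ Sec (v 1) (v 0) n X)
      ((loc_pair 4 0 0).dz.and (DZ.all (R := fun z v =>
        z ∈ v 3 ↔ ∃ n ∈ v 2, ∃ X ∈ v 0, z = ZFSet.pair n X ∧ Sec (v 2) (v 1) n X)
        ((DZ.mem 0 4).iff (DZ.exMem (R := fun n v =>
          ∃ X ∈ v 1, v 0 = ZFSet.pair n X ∧ Sec (v 3) (v 2) n X) 3
          (DZ.exMem (R := fun X v => v 1 = ZFSet.pair (v 0) X ∧ Sec (v 4) (v 3) (v 0) X) 2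
            ((loc_pair 2 1 0).dz.and ?_))))))
    refine DZ.or (DZ.allMem (R := fun b v => b ∈ v 0 ↔ ZFSet.pair (v 1) b ∈ v 4) 5
      ((DZ.mem 0 1).iff (loc_pmem 2 0 5).dz))
      (DZ.allMem (R := fun b v => b ∈ v 0 ↔ ¬ ZFSet.pair (v 1) b ∈ v 4) 5
      ((DZ.mem 0 1).iff (loc_pmem 2 0 5).dz.not))
  · show (∃ u, ZFSet.pair U U = ZFSet.pair u u ∧
      ∀ z, z ∈ y ↔ ∃ n ∈ k, ∃ X ∈ u, z = ZFSet.pair n X ∧ Sec k r n X) ↔ _
    constructor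
    · rintro ⟨u, hu, h⟩
      obtain ⟨rfl, -⟩ := ZFSet.pair_injective hu
      ext z
      rw [h, mem_pick]
    · rintro rfl
      exact ⟨U, rfl, fun z => mem_pick⟩

theorem nv_of_hod (h0 : T_PVA.{u}) {γ : Ordinal.{u}} (hγ : 0 < γ) (x : ZFSet.{u}) (hx : HOD x) :
    NV γ x := by
  induction x using ZFSet.inductionOn with
  | _ x ih =>
    exact ZFSet.hereditarily_iff.2 ⟨h0.1 γ x hγ hx.od, fun y hy => ih y hy ((hod_iff.1 hx).2 y hy)⟩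

theorem sec_cases {κ a : Ordinal.{u}} {R : Ordinal.{u} → Ordinal.{u} → Prop} {X : ZFSet.{u}}
    (ha : a < κ) (hX : X ⊆ κ.toZFSet)
    (h : Sec κ.toZFSet (rs κ κ fun n b => R b n) a.toZFSet X) :
    X = os κ {b | R b a} ∨ X = os κ {b | ¬ R b a} := by
  rcases h with h | h
  · left
    ext z
    rw [mem_os]
    constructor
    · intro hz
      obtain ⟨b, hb, rfl⟩ := mem_toZFSet_iff.1 (hX hz)
      exact ⟨b, hb, (pair_mem_rs.1 ((h _ (hX hz)).1 hz)).2.2, rfl⟩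
    · rintro ⟨b, hb, hR, rfl⟩
      exact (h _ (toZFSet_mem_toZFSet_iff.2 hb)).2 (pair_mem_rs.2 ⟨ha, hb, hR⟩)
  · right
    ext z
    rw [mem_os]
    constructor
    · intro hz
      obtain ⟨b, hb, rfl⟩ := mem_toZFSet_iff.1 (hX hz)
      exact ⟨b, hb, fun hR => (h _ (hX hz)).1 hz (pair_mem_rs.2 ⟨ha, hb, hR⟩), rfl⟩
    · rintro ⟨b, hb, hR, rfl⟩
      exact (h _ (toZFSet_mem_toZFSet_iff.2 hb)).2 fun h' => hR (pair_mem_rs.1 h').2.2

theorem sec1 {κ a : Ordinal.{u}} (R : Ordinal.{u} → Ordinal.{u} → Prop) (ha : a < κ) :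
    Sec κ.toZFSet (rs κ κ fun n b => R b n) a.toZFSet (os κ {b | R b a}) := by
  left
  intro z hz
  obtain ⟨b, hb, rfl⟩ := mem_toZFSet_iff.1 hz
  rw [ord_mem_os, pair_mem_rs]
  exact ⟨fun h => ⟨ha, h.1, h.2⟩, fun h => h.2⟩

theorem sec2 {κ a : Ordinal.{u}} (R : Ordinal.{u} → Ordinal.{u} → Prop) (ha : a < κ) :
    Sec κ.toZFSet (rs κ κ fun n b => R b n) a.toZFSet (os κ {b | ¬ R b a}) := by
  right
  intro z hz
  obtain ⟨b, hb, rfl⟩ := mem_toZFSet_iff.1 hz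
  rw [ord_mem_os, pair_mem_rs]
  exact ⟨fun h h' => h.2 h'.2.2, fun h => ⟨hb, fun hR => h ⟨ha, hb, hR⟩⟩⟩

/-- DGN -/
theorem pf_DGN (h0 : T_PVA.{u}) : T_DGN.{u} := by
  intro γ hγ K U hU R hR
  have hγ0 : 0 < γ := hγ.bot_lt
  have hds : ∀ a, DS {b | R b a} := fun a =>
    DO.sub (R := fun a w => R (w 0) a) a (DO.s2 (X := fun x y => R y x) (DO.s2 hR 1 0) 0 1)
  have hds' : ∀ a, DS {b | ¬ R b a} := fun a => (hds a).not
  have hsub : ∀ X : Set Ordinal.{u}, os K.ord X ⊆ K.ord.toZFSet := fun X z hz => by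
    obtain ⟨a, ha, -, rfl⟩ := mem_os.1 hz
    exact toZFSet_mem_toZFSet_iff.2 ha
  have hcompl : ∀ a, K.ord.toZFSet \ os K.ord {b | R b a} = os K.ord {b | ¬ R b a} := by
    intro a
    ext z
    rw [ZFSet.mem_sdiff, mem_os, mem_os]
    constructor
    · rintro ⟨h1, h2⟩
      obtain ⟨b, hb, rfl⟩ := mem_toZFSet_iff.1 h1
      exact ⟨b, hb, fun h => h2 ⟨b, hb, h, rfl⟩, rfl⟩
    · rintro ⟨b, hb, h, rfl⟩
      refine ⟨toZFSet_mem_toZFSet_iff.2 hb, ?_⟩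
      rintro ⟨c, -, h3, h4⟩
      rw [← toZFSet_injective h4] at h3
      exact h h3
  have hult : ∀ a, os K.ord {b | R b a} ∈ U ↔ os K.ord {b | ¬ R b a} ∉ U := by
    intro a
    rw [← hcompl]
    exact hU.ultra _ (nv_of_hod h0 hγ0 _ (hod_os (hds a) _)) (hsub _)
  set r := rs K.ord K.ord fun n b => R b n with hr
  have hrod : OD r := od_rs (R := fun n b => R b n) (DO.s2 hR 1 0) _ _
  set f := pick K.ord.toZFSet r U with hf
  have hPU : PV γ U := (ZFSet.hereditarily_iff.1 hU.inN).1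
  have hfP : PV γ f := h0.2.2.1 γ hγ U U f hPU hPU (odp_pick (OD.ordinal _) hrod)
  have hfN : NV γ f := by
    refine ZFSet.hereditarily_iff.2 ⟨hfP, fun y hy => ?_⟩
    obtain ⟨n, hn, X, hX, rfl, hS⟩ := mem_pick.1 hy
    obtain ⟨a, ha, rfl⟩ := mem_toZFSet_iff.1 hn
    rcases sec_cases ha (hU.sub X hX) hS with rfl | rfl
    · exact nv_of_hod h0 hγ0 _ ((HOD.ordinal a).pair (hod_os (hds a) _))
    · exact nv_of_hod h0 hγ0 _ ((HOD.ordinal a).pair (hod_os (hds' a) _))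
  have hp1 : ∀ a < K.ord, os K.ord {b | R b a} ∈ U →
      ZFSet.pair a.toZFSet (os K.ord {b | R b a}) ∈ f := fun a ha h =>
    mem_pick.2 ⟨_, toZFSet_mem_toZFSet_iff.2 ha, _, h, rfl, sec1 R ha⟩
  have hp2 : ∀ a < K.ord, os K.ord {b | R b a} ∉ U →
      ZFSet.pair a.toZFSet (os K.ord {b | ¬ R b a}) ∈ f := fun a ha h =>
    mem_pick.2 ⟨_, toZFSet_mem_toZFSet_iff.2 ha, _, by
      by_contra h'
      exact h ((hult a).2 h'), rfl, sec2 R ha⟩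
  have hfun : ZFSet.IsFunc K.ord.toZFSet U f := by
    refine ⟨fun z hz => (ZFSet.mem_sep.1 hz).1, fun z hz => ?_⟩
    obtain ⟨a, ha, rfl⟩ := mem_toZFSet_iff.1 hz
    have huni : ∀ X, ZFSet.pair a.toZFSet X ∈ f → X ∈ U ∧
        (X = os K.ord {b | R b a} ∨ X = os K.ord {b | ¬ R b a}) := by
      intro X hX
      obtain ⟨n, hn, X', hX', he, hS⟩ := mem_pick.1 hX
      obtain ⟨rfl, rfl⟩ := ZFSet.pair_injective he
      exact ⟨hX', sec_cases ha (hU.sub _ hX') hS⟩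
    by_cases h : os K.ord {b | R b a} ∈ U
    · refine ⟨_, hp1 a ha h, fun X hX => ?_⟩
      obtain ⟨h1, rfl | rfl⟩ := huni X hX
      · rfl
      · exact absurd h1 ((hult a).1 h)
    · refine ⟨_, hp2 a ha h, fun X hX => ?_⟩
      obtain ⟨h1, rfl | rfl⟩ := huni X hX
      · exact absurd h1 h
      · rfl
  refine ⟨{η | os K.ord {b | R b η} ∈ U}, _, hU.normal f hfN hfun, fun b hb η hη => ?_⟩
  obtain ⟨hbK, hb⟩ := ZFSet.mem_sep.1 hb
  have hbK' : b < K.ord := toZFSet_mem_toZFSet_iff.1 hbK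
  have hηK : η < K.ord := hη.trans hbK'
  by_cases h : os K.ord {b | R b η} ∈ U
  · have h1 := hb _ _ (toZFSet_mem_toZFSet_iff.2 hη) (hp1 η hηK h)
    exact ⟨fun _ => h, fun _ => (ord_mem_os.1 h1).2⟩
  · have h1 := hb _ _ (toZFSet_mem_toZFSet_iff.2 hη) (hp2 η hηK h)
    exact ⟨fun h2 => absurd h2 (ord_mem_os.1 h1).2, fun h2 => absurd h2 h⟩

end Pool.Agent.H90.HV
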