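import Pool.Agent.H97.HV.Targets
import Pool.Agent.H33.HD.VD

/-!
# Row FDS (MP_e37c09_lc): the theorem of Fodor
-/

open Ordinal Cardinal Order Set
open scoped ZFSet

universe u

namespace Pool.Agent.H90.HV

open _root_.HD HD.PRK HD.HV

theorem inter_gt {κ ν : Ordinal.{u}} (hν : ν < κ) {C : Set Ordinal.{u}} (hC : Clb κ C) :
    Clb κ {x | x ∈ C ∧ ν < x} := by
  refine ⟨fun a ha => ?_, fun x hx h0 h => ⟨hC.cls x hx h0 fun y hy => ?_, ?_⟩⟩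
  · obtain ⟨b, hb, hab, hbC⟩ := hC.unb (max a ν) (max_lt ha hν)
    exact ⟨b, hb, lt_of_le_of_lt (le_max_left _ _) hab, hbC,
      lt_of_le_of_lt (le_max_right _ _) hab⟩
  · obtain ⟨z, hz, hyz, hzC⟩ := h y hy
    exact ⟨z, hz, hyz, hzC.1⟩
  · obtain ⟨z, hz, -, hzC⟩ := h 0 h0
    exact hzC.2.trans hz

theorem fodor {K : Cardinal.{u}} (hK : K.IsRegular) (h0 : ℵ₀ < K) (h : Ordinal.{u} → Ordinal.{u})
    (S : Set Ordinal.{u}) (hS : Sta K.ord S) (hh : ∀ b ∈ S, b < K.ord → 0 < b → h b < b) :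
    ∃ a < K.ord, Sta K.ord {b | b ∈ S ∧ h b = a} := by
  by_contra hcon
  have h1 : ∀ a < K.ord, ∃ C, Clb K.ord C ∧ ∀ b < K.ord, b ∈ C → b ∈ S → h b ≠ a := by
    intro a ha
    by_contra hc
    refine hcon ⟨a, ha, fun C hC => ?_⟩
    by_contra hc'
    exact hc ⟨C, hC, fun b hb hbC hbX he => hc' ⟨b, hb, hbC, hbX, he⟩⟩
  choose! C hC1 hC2 using h1
  obtain ⟨b, hb, ⟨hb0, hbC⟩, hbX⟩ := hS _ (Pool.Agent.H33.HD.VD.diag hK h0 C hC1)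
  have h2 := hh b hbX hb hb0
  exact hC2 (h b) (lt_trans h2 hb) b hb (hbC _ h2) hbX rfl

/-- FDS -/
theorem pf_FDS : T_FDS.{u} := by
  intro K hK h0 S hS
  refine ⟨fun h hh => fodor hK h0 h S hS hh, fun ν hν e g hg => ?_⟩
  have hν' : ν.ord < K.ord := ord_lt_ord.2 hν
  have hS' : Sta K.ord {b | b ∈ S ∧ ν.ord < b} := by
    intro C hC
    obtain ⟨b, hb, ⟨hbC, hbν⟩, hbS⟩ := hS _ (inter_gt hν' hC)
    exact ⟨b, hb, hbC, hbS, hbν⟩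
  choose! h hh1 hh2 using hg
  obtain ⟨a, ha, hSta⟩ := fodor hK h0 h _ hS' (fun b hb hbK h0b => (hh1 b hb.1 hbK).trans hb.2)
  have hlim : IsSuccLimit K.ord := isSuccLimit_ord hK.aleph0_le
  have hu : Clb K.ord (univ : Set Ordinal.{u}) :=
    ⟨fun a ha => ⟨a + 1, hlim.add_one_lt ha, lt_add_one a, mem_univ _⟩, fun _ _ _ _ => mem_univ _⟩
  obtain ⟨b, hb, -, ⟨hbS, -⟩, hba⟩ := hSta _ hu
  refine ⟨a, hba ▸ hh1 b hbS hb, fun C hC => ?_⟩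
  obtain ⟨b, hb, hbC, ⟨hbS, -⟩, hba⟩ := hSta C hC
  exact ⟨b, hb, hbC, hbS, by rw [← hba]; exact hh2 b hbS hb⟩

end Pool.Agent.H90.HV
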